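import Pool.Agent.V11250.GenMod.Gen

namespace Pool.Agent.Results.MP_c38b8d_lc.DecidableEquality

open Pool.Agent.V11250.GenMod

theorem result :
    (∀ (S : Sig) (E : Eqns S), (∃ B : Alg S, B.Model E ∧ ∃ x y : B.C, x ≠ y) →
      Redundant (theory E) (decEq S) ∧ ¬ TrueInGeneric E (decEq S)) ∧
    TrueInGeneric (∅ : Eqns emptySig) (Fm.neg (decEq emptySig)) :=
  ⟨fun _ E h => ⟨redundant_of_valid E _ decEq_valid, not_generic h⟩, neg_generic⟩

end Pool.Agent.Results.MP_c38b8d_lc.DecidableEquality
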